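import Pool.Agent.Helper94.EN.Three
import Pool.Agent.N647.TS.Thin

set_option autoImplicit false

/-! From well distributed sequences of integer vectors to the engines for families of vectors of
natural numbers: the sequences are reduced modulo a common multiple of all the moduli. -/

namespace Pool.Agent.Helper94.EN

open Finset Filter
open Pool.Agent.N666.TM Pool.Agent.N647.TS
open Pool.Agent.Y722.HS (red)
open Pool.Agent.TH894.NE (box mem_box)

/-- the residues of an integer vector as natural numbers -/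
def md {ι : Type} (L : ℕ) (x : ι → ℤ) (i : ι) : ℕ := (x i % (L : ℤ)).toNat

lemma md_cast {ι : Type} {L : ℕ} (hL : 0 < L) (x : ι → ℤ) (i : ι) : (md L x i : ℤ) = x i % (L : ℤ) := by
  unfold md
  rw [Int.toNat_of_nonneg]
  exact Int.emod_nonneg _ (by exact_mod_cast hL.ne')

lemma md_zmod {ι : Type} {L q : ℕ} (hL : 0 < L) (hq : q ∣ L) (x : ι → ℤ) (i : ι) :
    ((md L x i : ℤ) : ZMod q) = ((x i : ℤ) : ZMod q) := by
  rw [md_cast hL, ZMod.intCast_eq_intCast_iff]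
  exact (Int.mod_modEq (x i) L).of_dvd (by exact_mod_cast hq)

lemma md_dvd {ι : Type} {L q : ℕ} (hL : 0 < L) (hq : q ∣ L) (x : ι → ℤ) (i : ι) :
    (q : ℤ) ∣ (md L x i : ℤ) - x i := by
  have h := md_zmod hL hq x i
  rw [ZMod.intCast_eq_intCast_iff] at h
  exact h.symm.dvd

section
variable {ι ι' : Type} [Fintype ι] [DecidableEq ι] [Fintype ι'] [DecidableEq ι']

omit [DecidableEq ι] in
theorem well_congr {s : Finset ℕ} {x x' : ℕ → ι → ℤ} {H : ℕ} (hw : Well s x H)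
    (h : ∀ q : ℕ, 1 ≤ q → q ≤ 2 * H + 1 → ∀ n ∈ s, red q (x' n) = red q (x n)) : Well s x' H := by
  refine ⟨hw.pos, fun q hq1 hq r => ?_⟩
  have he : (s.filter fun n => red q (x' n) = r) = s.filter fun n => red q (x n) = r := by
    apply Finset.filter_congr
    intro n hn
    rw [h q hq1 hq n hn]
  rw [he]
  exact hw.dist q hq1 hq r

theorem well_equiv {s : Finset ℕ} {x : ℕ → ι → ℤ} {H : ℕ} (e : ι' ≃ ι) (hw : Well s x H) :
    Well s (fun n i => x n (e i)) H := by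
  refine ⟨hw.pos, fun q hq1 hq r => ?_⟩
  have he : (s.filter fun n => red q (fun i => x n (e i)) = r) =
      s.filter fun n => red q (x n) = fun i => r (e.symm i) := by
    apply Finset.filter_congr
    intro n _
    constructor
    · intro h
      funext i
      have h2 : ((x n (e (e.symm i)) : ℤ) : ZMod q) = r (e.symm i) := congrFun h (e.symm i)
      rw [Equiv.apply_symm_apply] at h2
      exact h2
    · intro h
      funext i
      have h2 : ((x n (e i) : ℤ) : ZMod q) = r (e.symm (e i)) := congrFun h (e i)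
      rw [Equiv.symm_apply_apply] at h2
      exact h2
  rw [he, Fintype.card_congr e]
  exact hw.dist q hq1 hq _

theorem wd_equiv {D : Set ℕ} {x : ℕ → ι → ℤ} {κ : ℝ} (e : ι' ≃ ι) (hw : WD D x κ) :
    WD D (fun n i => x n (e i)) κ := by
  obtain ⟨N₀, h⟩ := hw
  exact ⟨N₀, fun N hN H hH => well_equiv e (h N hN H hH)⟩

end

theorem well_md {d : ℕ} {s : Finset ℕ} {x : ℕ → Fin d → ℤ} {H L : ℕ} (hw : Well s x H) (hL0 : 0 < L)
    (hL : ∀ q : ℕ, 1 ≤ q → q ≤ 2 * H + 1 → q ∣ L) : WellN s (fun n => md L (x n)) H := by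
  have h1 : Well s (fun n i => (md L (x n) i : ℤ)) H := well_congr hw fun q hq1 hq n _ => by
    funext i
    exact md_zmod hL0 (hL q hq1 hq) (x n) i
  exact wellN_of_well h1 fun n _ i => rfl

open Classical in
/-- from the well distributed families to the sequences (after `Pool.Agent.N647.TS.thin_conv`) -/
theorem wd_conv {d : ℕ} {κ₁ : ℝ} (hκ₁ : 0 < κ₁) (M : ℕ) : ∃ κ₀ : ℝ, 0 < κ₀ ∧
    ∀ (D : Set ℕ) (x : ℕ → Fin d → ℤ), WD D x κ₁ → ∃ y₀ : ℕ, ∀ y N A : ℕ, y₀ ≤ y →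
    ∀ R : ℕ → (Fin d → ℕ) → Prop,
    (∀ (S : Finset ℕ) (v : ℕ → Fin d → ℕ) (H : ℕ), WellN S v H → ∀ E : (Fin d → ℕ) → Prop,
      (∀ m, (∀ n : ℕ, y ≤ n → n ^ M ≤ 2 * H + 1 → R n m) → E m) →
      ((S.filter fun t => ¬ E (v t)).card : ℝ) ≤ 1 / (y : ℝ) ^ A * S.card) →
    ∀ E : (Fin d → ℤ) → Prop,
    (∀ m, ∀ L : ℕ, 0 < L → (∀ q : ℕ, 1 ≤ q → (q : ℝ) ≤ (N : ℝ) ^ κ₀ → q ∣ L) →
      (∀ n : ℕ, y ≤ n → (n : ℝ) ≤ (N : ℝ) ^ κ₀ → R n (md L m)) → E m) →
    (((blk D N).filter fun t => ¬ E (x t)).card : ℝ) ≤ 1 / (y : ℝ) ^ A * (blk D N).card := by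
  obtain ⟨κ₀, hκ₀⟩ : ∃ κ₀ : ℝ, κ₀ = κ₁ / (M + 1) := ⟨_, rfl⟩
  have hκ0 : 0 < κ₀ := by rw [hκ₀]; positivity
  refine ⟨κ₀, hκ0, fun D x hx => ?_⟩
  obtain ⟨N₁, h₁⟩ := hx
  obtain ⟨y₂, hy₂⟩ := exists_nat_gt ((N₁ : ℝ) ^ κ₀)
  refine ⟨y₂ + 1, fun y N A hy R hM E hE => ?_⟩
  by_cases hN : N₁ ≤ N
  · obtain ⟨J, hJ⟩ : ∃ J : ℕ, J = ⌊(N : ℝ) ^ κ₁⌋₊ := ⟨_, rfl⟩
    have hJ1 : (J : ℝ) ≤ (N : ℝ) ^ κ₁ := by
      rw [hJ]
      exact Nat.floor_le (Real.rpow_nonneg (Nat.cast_nonneg _) _)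
    have hJ2 : (N : ℝ) ^ κ₁ < J + 1 := by
      rw [hJ]
      exact Nat.lt_floor_add_one _
    have hκ01 : κ₀ ≤ κ₁ := by
      rw [hκ₀]
      apply div_le_self hκ₁.le
      have : (0 : ℝ) ≤ M := Nat.cast_nonneg _
      linarith
    obtain ⟨L, hL⟩ : ∃ L : ℕ, L = (2 * J + 1).factorial := ⟨_, rfl⟩
    have hL0 : 0 < L := by rw [hL]; exact Nat.factorial_pos _
    have hLd : ∀ q : ℕ, 1 ≤ q → q ≤ 2 * J + 1 → q ∣ L := fun q hq1 hq => by
      rw [hL]; exact Nat.dvd_factorial hq1 hq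
    have hw := well_md (h₁ N hN J hJ1) hL0 hLd
    have hle : ∀ n : ℕ, 1 ≤ n → (n : ℝ) ≤ (N : ℝ) ^ κ₀ → n ^ M ≤ 2 * J + 1 ∧ n ≤ 2 * J + 1 := by
      intro n hn hnN
      have hn1 : (1 : ℝ) ≤ n := by exact_mod_cast hn
      have hN0 : (0 : ℝ) ≤ N := Nat.cast_nonneg _
      have h3 : (n : ℝ) ^ (M + 1) ≤ (N : ℝ) ^ κ₁ := by
        calc (n : ℝ) ^ (M + 1) ≤ ((N : ℝ) ^ κ₀) ^ (M + 1) := pow_le_pow_left₀ (by positivity) hnN _
          _ = (N : ℝ) ^ κ₁ := by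
              rw [← Real.rpow_natCast, ← Real.rpow_mul hN0, hκ₀]
              congr 1
              push_cast
              field_simp
      have hJ0 : (0 : ℝ) ≤ J := Nat.cast_nonneg _
      have h4 : (n : ℝ) ^ M ≤ (n : ℝ) ^ (M + 1) := pow_le_pow_right₀ hn1 (by omega)
      have h4' : (n : ℝ) ^ 1 ≤ (n : ℝ) ^ (M + 1) := pow_le_pow_right₀ hn1 (by omega)
      rw [pow_one] at h4'
      constructor
      · have h5 : (n : ℝ) ^ M ≤ ((2 * J + 1 : ℕ) : ℝ) := by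
          push_cast
          linarith
        exact_mod_cast h5
      · have h5 : (n : ℝ) ≤ ((2 * J + 1 : ℕ) : ℝ) := by
          push_cast
          linarith
        exact_mod_cast h5
    have hE' : ∀ t, (∀ n : ℕ, y ≤ n → n ^ M ≤ 2 * J + 1 → R n (md L (x t))) → E (x t) := by
      intro t hm
      refine hE (x t) L hL0 (fun q hq1 hq => hLd q hq1 (hle q hq1 hq).2) fun n hyn hnN => hm n hyn ?_
      exact (hle n (by omega) hnN).1
    have h := hM (blk D N) (fun t => md L (x t)) J hw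
      (fun m => ∀ n : ℕ, y ≤ n → n ^ M ≤ 2 * J + 1 → R n m) (fun m hm => hm)
    refine le_trans (Nat.cast_le.2 (Finset.card_le_card ?_)) h
    intro t ht
    rw [Finset.mem_filter] at ht ⊢
    exact ⟨ht.1, fun h => ht.2 (hE' t h)⟩
  · have hall : ∀ m, E m := by
      intro m
      obtain ⟨L, hL⟩ : ∃ L : ℕ, L = (⌊(N : ℝ) ^ κ₀⌋₊ + 1).factorial := ⟨_, rfl⟩
      refine hE m L (by rw [hL]; exact Nat.factorial_pos _) (fun q hq1 hq => ?_) fun n hyn hnN => ?_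
      · rw [hL]
        exact Nat.dvd_factorial hq1 ((Nat.le_floor hq).trans (Nat.le_succ _))
      · exfalso
        have h2 : (N : ℝ) ^ κ₀ ≤ (N₁ : ℝ) ^ κ₀ := by
          apply Real.rpow_le_rpow (Nat.cast_nonneg _) _ hκ0.le
          exact_mod_cast (by omega : N ≤ N₁)
        have h3 : (y₂ : ℝ) ≤ n := by exact_mod_cast (by omega : y₂ ≤ n)
        linarith
    rw [Finset.filter_false_of_mem (fun t _ => not_not.2 (hall _)), card_empty, Nat.cast_zero]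
    positivity

end Pool.Agent.Helper94.EN
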