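import Pool.Agent.N666.TM.Mean

set_option autoImplicit false

/-! From well distributed families modulo the integers up to `H` to sequences, in terms of `N`, for
exceptional sets which depend on a level. -/

namespace Pool.Agent.Helper94.EN

open Filter Pool.Agent.N666.TM

open Classical in
/-- Let for all large `H` a level `L` with `Q H L` be given such that at most the proportion `H ^ (-τ)` of
each family which is well distributed modulo the integers up to `H` is bad at the level `L`. Then there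
are levels `L(N)` with `Q H (L N)` for some `H ≤ N` such that for each sequence which is well
distributed modulo the integers up to `N ^ κ` at most the proportion `N ^ (-η)` is bad at the level
`L(N)`. -/
theorem toNL {ι : Type} [Fintype ι] [DecidableEq ι] {τ : ℝ} (hτ : 0 < τ) {H₀ : ℕ}
    {Q : ℕ → ℕ → Prop} {Bad : ℕ → (ι → ℤ) → Prop}
    (h : ∀ H : ℕ, H₀ ≤ H → ∃ L : ℕ, Q H L ∧ ∀ (S : Finset ℕ) (x : ℕ → ι → ℤ), Well S x H →
      ((S.filter fun n => Bad L (x n)).card : ℝ) ≤ S.card * (H : ℝ) ^ (-τ)) {κ : ℝ} (hκ : 0 < κ) :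
    ∃ L : ℕ → ℕ, (∀ᶠ N : ℕ in atTop, ∃ H : ℕ, 1 ≤ H ∧ H ≤ N ∧ Q H (L N)) ∧
      ∀ (S : ℕ → Finset ℕ) (x : ℕ → ι → ℤ),
      (∃ N₀ : ℕ, ∀ N : ℕ, N₀ ≤ N → ∀ H : ℕ, (H : ℝ) ≤ (N : ℝ) ^ κ → Well (S N) x H) →
      ∃ N₀ : ℕ, ∀ N : ℕ, N₀ ≤ N →
        (((S N).filter fun n => Bad (L N) (x n)).card : ℝ) ≤
          (N : ℝ) ^ (-(min κ 1 / 2 * τ)) * (S N).card := by
  obtain ⟨κ₁, hκ₁⟩ : ∃ κ₁ : ℝ, κ₁ = min κ 1 := ⟨_, rfl⟩
  rw [← hκ₁]
  have hκ₁0 : 0 < κ₁ := by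
    rw [hκ₁]
    exact lt_min hκ one_pos
  obtain ⟨H, hH⟩ : ∃ H : ℕ → ℕ, H = fun N : ℕ => ⌊(N : ℝ) ^ κ₁⌋₊ := ⟨_, rfl⟩
  have hev : ∀ᶠ N : ℕ in atTop, H₀ ≤ H N ∧ 1 ≤ H N ∧ H N ≤ N ∧ (H N : ℝ) ≤ (N : ℝ) ^ κ ∧
      (N : ℝ) ^ (κ₁ / 2) ≤ H N ∧ 1 ≤ N := by
    have h1 : Tendsto (fun N : ℕ => (N : ℝ) ^ (κ₁ / 2)) atTop atTop :=
      (tendsto_rpow_atTop (by positivity)).comp tendsto_natCast_atTop_atTop
    filter_upwards [h1.eventually_ge_atTop ((H₀ : ℝ) + 3), eventually_ge_atTop 1] with N hN hN1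
    have hNr : (1 : ℝ) ≤ N := by exact_mod_cast hN1
    have hN0 : (0 : ℝ) < N := by linarith
    obtain ⟨y, hy⟩ : ∃ y : ℝ, y = (N : ℝ) ^ (κ₁ / 2) := ⟨_, rfl⟩
    rw [← hy] at hN ⊢
    have hyy : (N : ℝ) ^ κ₁ = y * y := by
      rw [hy, ← Real.rpow_add hN0]; congr 1; ring
    have hH0r : (0 : ℝ) ≤ H₀ := Nat.cast_nonneg _
    have hHle : (H N : ℝ) ≤ (N : ℝ) ^ κ₁ := by
      rw [hH]
      exact Nat.floor_le (by positivity)
    have hHge : y ≤ (H N : ℝ) := by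
      have h1 : (N : ℝ) ^ κ₁ < H N + 1 := by
        rw [hH]
        exact Nat.lt_floor_add_one _
      rw [hyy] at h1
      nlinarith
    refine ⟨?_, ?_, ?_, hHle.trans (Real.rpow_le_rpow_of_exponent_le hNr (by rw [hκ₁]; exact min_le_left _ _)),
      hHge, hN1⟩
    · have : (H₀ : ℝ) ≤ H N := by linarith
      exact_mod_cast this
    · have : (1 : ℝ) ≤ H N := by linarith
      exact_mod_cast this
    · have h1 : (H N : ℝ) ≤ N := by
        refine hHle.trans ?_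
        calc (N : ℝ) ^ κ₁ ≤ (N : ℝ) ^ (1 : ℝ) :=
              Real.rpow_le_rpow_of_exponent_le hNr (by rw [hκ₁]; exact min_le_right _ _)
          _ = N := Real.rpow_one _
      exact_mod_cast h1
  have hL : ∀ N, ∃ L : ℕ, H₀ ≤ H N → (Q (H N) L ∧ ∀ (S : Finset ℕ) (x : ℕ → ι → ℤ), Well S x (H N) →
      ((S.filter fun n => Bad L (x n)).card : ℝ) ≤ S.card * (H N : ℝ) ^ (-τ)) := by
    intro N
    by_cases hN : H₀ ≤ H N
    · obtain ⟨L, hL⟩ := h (H N) hN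
      exact ⟨L, fun _ => hL⟩
    · exact ⟨0, fun h' => absurd h' hN⟩
  choose L hL using hL
  refine ⟨L, ?_, fun S x hw => ?_⟩
  · filter_upwards [hev] with N hN
    exact ⟨H N, hN.2.1, hN.2.2.1, (hL N hN.1).1⟩
  · obtain ⟨N₁, hN₁⟩ := hw
    obtain ⟨N₂, hN₂⟩ := eventually_atTop.1 hev
    refine ⟨max N₁ N₂, fun N hN => ?_⟩
    obtain ⟨h1, h2, h3, h4, h5, h6⟩ := hN₂ N ((le_max_right _ _).trans hN)
    have hNr : (1 : ℝ) ≤ N := by exact_mod_cast h6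
    have hN0 : (0 : ℝ) < N := by linarith
    have hH0 : (0 : ℝ) < H N := by
      have : (1 : ℝ) ≤ H N := by exact_mod_cast h2
      linarith
    refine ((hL N h1).2 (S N) x (hN₁ N ((le_max_left _ _).trans hN) (H N) h4)).trans ?_
    rw [mul_comm]
    refine mul_le_mul_of_nonneg_right ?_ (Nat.cast_nonneg _)
    rw [Real.rpow_neg hH0.le, Real.rpow_neg hN0.le]
    apply inv_anti₀ (by positivity)
    calc (N : ℝ) ^ (κ₁ / 2 * τ) = ((N : ℝ) ^ (κ₁ / 2)) ^ τ := by rw [← Real.rpow_mul hN0.le]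
      _ ≤ (H N : ℝ) ^ τ := Real.rpow_le_rpow (by positivity) h5 hτ.le

end Pool.Agent.Helper94.EN
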