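import Pool.Agent.N666.TM.Mean

set_option autoImplicit false

/-! From well distributed families modulo the integers up to `H` to sequences, in terms of `N`. -/

namespace Pool.Agent.Helper94.EN

open Filter Pool.Agent.N666.TM

/-- An exceptional proportion `H ^ (-δ)` for all families which are well distributed modulo the
integers up to `H` gives an exceptional proportion `N ^ (-δ')` for all sequences which are well
distributed modulo the integers up to `N ^ κ`. -/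
theorem toN {ι : Type} [Fintype ι] [DecidableEq ι] (Bad : ℝ → ℝ → (ι → ℤ) → Prop)
    [∀ X Y v, Decidable (Bad X Y v)]
    (hmono : ∀ X X' Y Y' v, X ≤ X' → Y' ≤ Y → Bad X Y v → Bad X' Y' v) {A δ : ℝ} (hA : 0 < A)
    (hδ : 0 < δ) {H₀ : ℕ}
    (h : ∀ H : ℕ, H₀ ≤ H → ∀ (S : Finset ℕ) (x : ℕ → ι → ℤ), Well S x H →
      ((S.filter fun n => Bad ((H : ℝ) ^ δ) (Real.log H ^ A) (x n)).card : ℝ) ≤
        S.card * (H : ℝ) ^ (-δ)) (κ : ℝ) (hκ : 0 < κ) :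
    ∃ δ' : ℝ, 0 < δ' ∧ ∀ (S : ℕ → Finset ℕ) (x : ℕ → ι → ℤ),
      (∃ N₀ : ℕ, ∀ N : ℕ, N₀ ≤ N → ∀ H : ℕ, (H : ℝ) ≤ (N : ℝ) ^ κ → Well (S N) x H) →
      ∃ N₀ : ℕ, ∀ N : ℕ, N₀ ≤ N →
        (((S N).filter fun n => Bad ((N : ℝ) ^ δ') (Real.log N ^ A) (x n)).card : ℝ) ≤
          (N : ℝ) ^ (-δ') * (S N).card := by
  set κ₁ : ℝ := min κ 1 with hκ₁
  have hκ₁0 : 0 < κ₁ := lt_min hκ one_pos
  refine ⟨κ₁ / 2 * δ, by positivity, fun S x hw => ?_⟩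
  obtain ⟨N₁, hN₁⟩ := hw
  have hev : ∀ᶠ N : ℕ in atTop, (H₀ : ℝ) + 3 ≤ (N : ℝ) ^ (κ₁ / 2) := by
    have h1 : Tendsto (fun N : ℕ => (N : ℝ) ^ (κ₁ / 2)) atTop atTop :=
      (tendsto_rpow_atTop (by positivity)).comp tendsto_natCast_atTop_atTop
    exact h1.eventually_ge_atTop _
  obtain ⟨N₂, hN₂⟩ := eventually_atTop.mp hev
  refine ⟨max N₁ (max N₂ 1), fun N hN => ?_⟩
  have hNN1 : N₁ ≤ N := (le_max_left _ _).trans hN
  have hNN2 : N₂ ≤ N := (le_max_left _ _).trans ((le_max_right _ _).trans hN)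
  have hN1 : 1 ≤ N := (le_max_right _ _).trans ((le_max_right _ _).trans hN)
  have hNr : (1 : ℝ) ≤ N := by exact_mod_cast hN1
  have hN0 : (0 : ℝ) < N := by linarith
  set y : ℝ := (N : ℝ) ^ (κ₁ / 2) with hy
  have hyy : (N : ℝ) ^ κ₁ = y * y := by
    rw [hy, ← Real.rpow_add hN0]; congr 1; ring
  have hy3 : (H₀ : ℝ) + 3 ≤ y := hN₂ N hNN2
  have hH0r : (0 : ℝ) ≤ H₀ := Nat.cast_nonneg _
  set H : ℕ := ⌊(N : ℝ) ^ κ₁⌋₊ with hH
  have hHle : (H : ℝ) ≤ (N : ℝ) ^ κ₁ := Nat.floor_le (by positivity)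
  have hHge : y ≤ (H : ℝ) := by
    have h1 : (N : ℝ) ^ κ₁ < H + 1 := Nat.lt_floor_add_one _
    rw [hyy] at h1
    nlinarith
  have hHH₀ : H₀ ≤ H := by
    have : (H₀ : ℝ) ≤ H := by linarith
    exact_mod_cast this
  have hHκ : (H : ℝ) ≤ (N : ℝ) ^ κ :=
    hHle.trans (Real.rpow_le_rpow_of_exponent_le hNr (min_le_left _ _))
  have hHN : (H : ℝ) ≤ N := by
    have h1 : (N : ℝ) ^ κ₁ ≤ (N : ℝ) ^ (1 : ℝ) :=
      Real.rpow_le_rpow_of_exponent_le hNr (min_le_right _ _)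
    rw [Real.rpow_one] at h1
    exact hHle.trans h1
  have hH1 : (1 : ℝ) ≤ H := by linarith
  have hH0 : (0 : ℝ) < H := by linarith
  have hX : (N : ℝ) ^ (κ₁ / 2 * δ) ≤ (H : ℝ) ^ δ := by
    rw [Real.rpow_mul hN0.le]
    exact Real.rpow_le_rpow (by positivity) hHge hδ.le
  have hX' : (H : ℝ) ^ (-δ) ≤ (N : ℝ) ^ (-(κ₁ / 2 * δ)) := by
    rw [Real.rpow_neg hH0.le, Real.rpow_neg hN0.le]
    exact inv_anti₀ (by positivity) hX
  have hlog : Real.log H ^ A ≤ Real.log N ^ A :=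
    Real.rpow_le_rpow (Real.log_nonneg hH1) (Real.log_le_log hH0 hHN) hA.le
  have h1 := h H hHH₀ (S N) x (hN₁ N hNN1 H hHκ)
  have h2 : (((S N).filter fun n => Bad ((N : ℝ) ^ (κ₁ / 2 * δ)) (Real.log N ^ A) (x n)).card : ℝ) ≤
      (((S N).filter fun n => Bad ((H : ℝ) ^ δ) (Real.log H ^ A) (x n)).card : ℝ) := by
    apply Nat.cast_le.2
    apply Finset.card_le_card
    intro n hn
    rw [Finset.mem_filter] at hn ⊢
    exact ⟨hn.1, hmono _ _ _ _ _ hX hlog hn.2⟩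
  refine h2.trans (h1.trans ?_)
  rw [mul_comm]
  exact mul_le_mul_of_nonneg_right hX' (Nat.cast_nonneg _)

end Pool.Agent.Helper94.EN
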