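import Pool.Agent.N84.TS.Main
import Pool.Agent.TH838.SK.Main
import Pool.Agent.Helper94.EN.ToN

set_option autoImplicit false

/-! Almost all members of a well distributed family of systems of recurrences avoid all
hypersurfaces of bounded degree and small height. -/

namespace Pool.Agent.Helper94.EN

open Filter Pool.Agent.H684R3.Smo Pool.Agent.H884R2.Sko Pool.Agent.H692R2.USS
open Pool.Agent.TH838.SK Pool.Agent.N666.TM Pool.Agent.Y722.HS Pool.Agent.N84.TS

open Classical in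
theorem sys_sieve (s r : ℕ) (d : Fin s → ℕ) : ∃ A δ : ℝ, 0 < A ∧ 0 < δ ∧ ∃ H₀ : ℕ,
    ∀ H : ℕ, H₀ ≤ H → ∀ (S : Finset ℕ) (x : ℕ → Ix d ⊕ Ix d → ℤ), Well S x H →
      ((S.filter fun n => ¬ Easy d r ((H : ℝ) ^ δ) (Real.log H ^ A) (x n)).card : ℝ) ≤
        S.card * (H : ℝ) ^ (-δ) := by
  set D : ℕ := Fintype.card (Ix d) with hD
  set k : ℕ := 2 * (D * r + 1) with hk
  set M : ℕ := (2 * k) ^ D * ∏ j, (d j).factorial with hM
  have hMpos : 0 < M := by
    apply Nat.mul_pos (pow_pos (by omega) _)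
    exact Finset.prod_pos fun j _ => Nat.factorial_pos _
  set p₀ : ℕ := k * M + ∑ j, 2 * k * d j with hp₀
  obtain ⟨θ, hθ, hcount⟩ := primes_one k (by omega) p₀
  set P : ℕ → Prop := fun p => p.Prime ∧ p₀ ≤ p ∧ k ∣ p - 1 with hP
  set κ : ℝ := 1 / (4 * M : ℕ) with hκ
  have hκ0 : 0 < κ := by positivity
  let J : Type := (Ix d → Fin (r + 1)) × (Ix d → Fin (r + 1))
  let prim : (J → ℤ) → Prop := fun w => ∀ q : ℕ, q.Prime → ∃ e, ¬ (q : ℤ) ∣ w e
  let Dw : (J → ℤ) → ℤ := fun w => if prim w then 1 else 0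
  -- the good sets for `w`
  let G : (J → ℤ) → ∀ p : ℕ, Set (Ix d ⊕ Ix d → ZMod p) := fun w p =>
    {x | GoodW (p := p) ((p - 1) / k) (fun e => (w e : ZMod p)) (rv fun q => x (Sum.inl q))
      (fun q => x (Sum.inr q))}
  have hG : ∀ w : J → ℤ, prim w → ∀ p, P p →
      κ * (p : ℝ) ^ Fintype.card (Ix d ⊕ Ix d) ≤ (Nat.card (G w p) : ℝ) := by
    intro w hw p hp
    have hpp : Fact p.Prime := ⟨hp.1⟩
    have hT : k * ((p - 1) / k) = p - 1 := Nat.mul_div_cancel' hp.2.2
    have hwp : (fun e => (w e : ZMod p)) ≠ 0 := by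
      obtain ⟨e, he⟩ := hw p hp.1
      intro h
      apply he
      rw [← ZMod.intCast_zmod_eq_zero_iff_dvd]
      exact congrFun h e
    have hp1 : k * ((2 * k) ^ D * ∏ j, (d j).factorial) ≤ p := by
      have := hp.2.1
      rw [hp₀, hM] at this
      omega
    have hp2 : ∀ j, 2 * k * d j ≤ p := by
      intro j
      have h1 := hp.2.1
      have h2 : 2 * k * d j ≤ ∑ j, 2 * k * d j :=
        Finset.single_le_sum (f := fun j => 2 * k * d j) (fun _ _ => Nat.zero_le _)
          (Finset.mem_univ j)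
      omega
    have h1 := card_goodW p d r k ((p - 1) / k) D hD hk hT hp1 hp2 (fun e => (w e : ZMod p)) hwp
    have h2 : Nat.card (G w p) =
        ((Finset.univ : Finset ((Ix d → ZMod p) × (Ix d → ZMod p))).filter
          (fun x => GoodW ((p - 1) / k) (fun e => (w e : ZMod p)) x.1 x.2)).card := by
      rw [← Fintype.card_subtype, ← Nat.card_eq_fintype_card]
      apply Nat.card_congr
      refine
        { toFun := fun x => ⟨(rv fun q => x.1 (Sum.inl q), fun q => x.1 (Sum.inr q)), x.2⟩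
          invFun := fun x => ⟨Sum.elim (rv x.1.1) x.1.2, ?_⟩
          left_inv := fun x => ?_
          right_inv := fun x => ?_ }
      · have := x.2
        simp only [G, Set.mem_ofPred_eq, Sum.elim_inl, Sum.elim_inr]
        change GoodW _ _ (rv (rv x.1.1)) _
        rw [rv_rv]
        exact this
      · apply Subtype.ext
        funext q
        rcases q with q | q
        · simp [rv]
        · rfl
      · apply Subtype.ext
        apply Prod.ext
        · simp only [Sum.elim_inl]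
          exact rv_rv _
        · rfl
    have h3 : Fintype.card (Ix d ⊕ Ix d) = 2 * D := by
      rw [Fintype.card_sum, ← hD]; ring
    rw [h2, h3, hκ, one_div, inv_mul_le_iff₀ (by positivity)]
    exact_mod_cast h1
  obtain ⟨A, δ, hA, hδ, H₀, hmain⟩ := sieve_union_w (Ix d ⊕ Ix d) J P κ θ 1 0 hκ0 hθ le_rfl hcount
    (fun p hp => hp.1) Dw (by
      intro w X _ _
      simp only [Dw]
      split_ifs <;> norm_num) G (by
      intro w p hp hpD
      apply hG w _ p hp
      by_contra hcon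
      apply hpD
      simp only [Dw]
      rw [if_neg hcon]
      exact dvd_zero _)
  refine ⟨A, δ, hA, hδ, max H₀ 1, fun H hH S x hw => ?_⟩
  refine le_trans ?_ (hmain H ((le_max_left _ _).trans hH) S x hw)
  apply Nat.cast_le.2
  apply Finset.card_le_card
  intro n hn
  rw [Finset.mem_filter] at hn ⊢
  refine ⟨hn.1, ?_⟩
  by_contra hcon
  apply hn.2
  push Not at hcon
  have hprim : ∀ w : J → ℤ, (∀ e, |(w e : ℝ)| ≤ (H : ℝ) ^ δ) → prim w → ∀ u,
      Sys (fun q => x n (Sum.inl q)) (fun q => x n (Sum.inr q)) u →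
      Cert (Real.log H ^ A) (val w (fun q => x n (Sum.inl q)) u) := by
    intro w hwX hw u hu
    have h1 : Dw w = 1 := by
      simp only [Dw]
      rw [if_pos hw]
    obtain ⟨p, hp, -, hpA, hpG⟩ := hcon w hwX (by rw [h1]; norm_num)
    exact ⟨p, hp.1, hpA, fun m => good_cert' _ _ u hu w p ((p - 1) / k) k
      (Nat.mul_div_cancel' hp.2.2) (by
        have h3 : GoodW (p := p) ((p - 1) / k) (fun e => (w e : ZMod p))
          (rv fun q => ((x n (Sum.inl q) : ℤ) : ZMod p)) (fun q => (x n (Sum.inr q) : ZMod p)) := hpG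
        exact h3) m⟩
  intro u hu w hw0 hwX
  refine ⟨?_, fun h => hprim w hwX h u hu⟩
  obtain ⟨g, w', hg, hgw, hle, hprim'⟩ := exists_prim w hw0
  obtain ⟨p, -, -, hp⟩ := hprim w' (fun e => le_trans (by exact_mod_cast hle e) (hwX e)) hprim'
    u hu
  intro m hm
  have h1 : val w (fun q => x n (Sum.inl q)) u m = g * val w' (fun q => x n (Sum.inl q)) u m := by
    unfold Pool.Agent.TH838.SK.val pv
    rw [Finset.mul_sum]
    refine Finset.sum_congr rfl fun e _ => ?_
    rw [hgw e]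
    ring
  rw [h1] at hm
  have h2 := (mul_eq_zero.1 hm).resolve_left hg
  apply (hp m).1
  rw [h2]
  exact dvd_zero _

open Classical in
/-- in terms of `N` -/
theorem sys_main (s r : ℕ) (d : Fin s → ℕ) : ∃ A : ℝ, 0 < A ∧ ∀ κ : ℝ, 0 < κ → ∃ δ : ℝ, 0 < δ ∧
    ∀ (S : ℕ → Finset ℕ) (x : ℕ → Ix d ⊕ Ix d → ℤ),
      (∃ N₀ : ℕ, ∀ N : ℕ, N₀ ≤ N → ∀ H : ℕ, (H : ℝ) ≤ (N : ℝ) ^ κ → Well (S N) x H) →
      ∃ N₀ : ℕ, ∀ N : ℕ, N₀ ≤ N →
        (((S N).filter fun n => ¬ Easy d r ((N : ℝ) ^ δ) (Real.log N ^ A) (x n)).card : ℝ) ≤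
          (N : ℝ) ^ (-δ) * (S N).card := by
  obtain ⟨A, δ, hA, hδ, H₀, h⟩ := sys_sieve s r d
  refine ⟨A, hA, fun κ hκ => ?_⟩
  exact toN (fun X Y v => ¬ Easy d r X Y v) (by
    intro X X' Y Y' v hX hY hbad he
    apply hbad
    intro u hu w hw0 hwX
    obtain ⟨h1, h2⟩ := he u hu w hw0 (fun e => (hwX e).trans hX)
    refine ⟨h1, fun h3 => ?_⟩
    obtain ⟨p, hp, hpY, hpv⟩ := h2 h3
    exact ⟨p, hp, hpY.trans hY, hpv⟩) hA hδ h κ hκ

end Pool.Agent.Helper94.EN
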