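import Pool.Agent.N54.ME.Three

set_option autoImplicit false

/-! Almost all members of the families of sequences `⌊F i n (α i)⌋`, `⌊α i * g i n + c i n⌋` and
`⌊α i ^ g i n + c i n⌋` are well distributed over the members `n` of any set of natural numbers with
at least `N ^ (1 - ε)` members in `(N, 2 N]` (after `Pool.Agent.N54.ME.Three`). -/

namespace Pool.Agent.Helper94.EN

open Finset Filter MeasureTheory
open Pool.Agent.N54.ME Pool.Agent.N666.TM Pool.Agent.TH668.Met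

open Classical in
/-- the members of `D` in `(N, 2 N]` -/
noncomputable def blk (D : Set ℕ) (N : ℕ) : Finset ℕ := (Finset.Ioc N (2 * N)).filter (fun t => t ∈ D)

/-- the set `D` has at least `N ^ (1 - ε)` members in `(N, 2 N]` for large `N` -/
def Many (D : Set ℕ) : Prop :=
  ∀ ε : ℝ, 0 < ε → ∃ N₀ : ℕ, ∀ N : ℕ, N₀ ≤ N → (N : ℝ) ^ (1 - ε) ≤ ((blk D N).card : ℝ)

theorem many_univ : Many Set.univ := by
  classical
  intro ε hε
  obtain ⟨N₀, h⟩ := many_ints ε hε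
  refine ⟨N₀, fun N hN => (h N hN).trans ?_⟩
  unfold blk
  simp

theorem many_primes : Many {n | n.Prime} := by
  classical
  intro ε hε
  obtain ⟨N₀, h⟩ := Pool.Agent.N54.ME.many_primes ε hε
  refine ⟨N₀, fun N hN => (h N hN).trans ?_⟩
  unfold blk
  simp

section
variable {ι : Type} [Fintype ι] [DecidableEq ι]

/-- well distributed modulo the integers up to `N ^ κ`, over the members of `D` -/
def WD (D : Set ℕ) (x : ℕ → ι → ℤ) (κ : ℝ) : Prop :=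
  ∃ N₀ : ℕ, ∀ N : ℕ, N₀ ≤ N → ∀ H : ℕ, (H : ℝ) ≤ (N : ℝ) ^ κ → Well (blk D N) x H

theorem spread_wd [Nonempty ι] {D : Set ℕ} (hD : Many D) {ρ : ℝ} (hρ : 0 < ρ) (hρ1 : ρ ≤ 1)
    (u v : ι → ℝ) (F : ι → ℕ → ℝ → ℝ) (hF : ∀ j, Spread ρ (u j) (v j) (F j)) :
    ∀ᵐ α : ι → ℝ, (∀ i, α i ∈ Set.Ioc (u i) (v i)) →
      WD D (fun n i => ⌊F i n (α i)⌋) (kap ρ (Fintype.card ι)) := by
  classical
  by_cases huv : ∀ j, u j ≤ v j
  · choose n₀ hn₀ using fun j => (hF j).fam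
    have hfam := fun j => hn₀ j (∑ j, n₀ j)
      (single_le_sum (f := n₀) (fun _ _ => Nat.zero_le _) (mem_univ j))
    filter_upwards [ae_well (fun t => t ∈ D) hD ρ hρ hρ1 u v huv (∑ j, n₀ j) F _ _ hfam]
      with α h1 hα
    obtain ⟨N₁, h1⟩ := h1 hα
    exact ⟨N₁, fun N hN H hH => h1 N hN H hH⟩
  · push Not at huv
    obtain ⟨j, hj⟩ := huv
    refine Eventually.of_forall fun α hα => ?_
    have := hα j
    exact absurd (this.1.trans_le this.2) (not_lt.2 hj.le)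

theorem lin_wd [Nonempty ι] {D : Set ℕ} (hD : Many D) {ρ : ℝ} (hρ : 0 < ρ) (hρ1 : ρ ≤ 1)
    (g c : ι → ℕ → ℝ)
    (hg : ∀ i, ∀ᶠ n : ℕ in atTop, (n : ℝ) ^ (ρ - 1) ≤ g i (n + 1) - g i n) :
    ∀ᵐ α : ι → ℝ, WD D (fun n i => ⌊α i * g i n + c i n⌋) (kap ρ (Fintype.card ι)) := by
  have h1 : ∀ᵐ α : ι → ℝ, ∀ m : ℕ, (∀ i, α i ∈ Set.Ioc (-(m : ℝ)) m) →
      WD D (fun n i => ⌊α i * g i n + c i n⌋) (kap ρ (Fintype.card ι)) :=
    ae_all_iff.2 fun m => spread_wd hD hρ hρ1 (fun _ => -(m : ℝ)) (fun _ => m)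
      (fun i n x => x * g i n + c i n) fun i => spread_lin _ _ (g i) (c i) (hg i)
  filter_upwards [h1] with α hα
  obtain ⟨m, hm⟩ := exists_nat_gt (∑ i, |α i|)
  refine hα m fun i => ?_
  have h2 : |α i| ≤ ∑ i, |α i| := single_le_sum (f := fun i => |α i|) (fun _ _ => abs_nonneg _)
    (mem_univ i)
  have h3 := abs_lt.1 (h2.trans_lt hm)
  exact ⟨h3.1, h3.2.le⟩

theorem pow_wd [Nonempty ι] {D : Set ℕ} (hD : Many D) {ρ : ℝ} (hρ : 0 < ρ) (hρ1 : ρ ≤ 1)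
    (g : ι → ℕ → ℕ) (hg : ∀ i, StrictMono (g i)) (c : ι → ℕ → ℝ) :
    ∀ᵐ α : ι → ℝ, (∀ i, 1 < α i) →
      WD D (fun n i => ⌊α i ^ g i n + c i n⌋) (kap ρ (Fintype.card ι)) := by
  have h1 : ∀ᵐ α : ι → ℝ, ∀ m : ℕ, (∀ i, α i ∈ Set.Ioc (1 : ℝ) m) →
      WD D (fun n i => ⌊α i ^ g i n + c i n⌋) (kap ρ (Fintype.card ι)) :=
    ae_all_iff.2 fun m => spread_wd hD hρ hρ1 (fun _ => (1 : ℝ)) (fun _ => m)
      (fun i n x => x ^ g i n + c i n) fun i => spread_pow hρ1 _ _ le_rfl (g i) (hg i) (c i)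
  filter_upwards [h1] with α hα h
  obtain ⟨m, hm⟩ := exists_nat_gt (∑ i, |α i|)
  refine hα m fun i => ⟨h i, ?_⟩
  have h2 : |α i| ≤ ∑ i, |α i| := single_le_sum (f := fun i => |α i|) (fun _ _ => abs_nonneg _)
    (mem_univ i)
  exact ((le_abs_self _).trans h2).trans hm.le

/-- the three kinds of families, over all sets of indices with many members -/
theorem threeD [Nonempty ι] {D : Set ℕ} (hD : Many D) {ρ : ℝ} (hρ : 0 < ρ) (hρ1 : ρ ≤ 1)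
    (B : (ℕ → ι → ℤ) → Prop)
    (hB : ∀ x : ℕ → ι → ℤ, WD D x (kap ρ (Fintype.card ι)) → B x) :
    (∀ (u v : ι → ℝ) (F : ι → ℕ → ℝ → ℝ), (∀ j, Spread ρ (u j) (v j) (F j)) →
      ∀ᵐ α : ι → ℝ, (∀ i, α i ∈ Set.Ioc (u i) (v i)) → B (fun n i => ⌊F i n (α i)⌋)) ∧
    (∀ g c : ι → ℕ → ℝ, (∀ i, ∀ᶠ n : ℕ in atTop, (n : ℝ) ^ (ρ - 1) ≤ g i (n + 1) - g i n) →
      ∀ᵐ α : ι → ℝ, B (fun n i => ⌊α i * g i n + c i n⌋)) ∧
    (∀ (g : ι → ℕ → ℕ) (c : ι → ℕ → ℝ), (∀ i, StrictMono (g i)) →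
      ∀ᵐ α : ι → ℝ, (∀ i, 1 < α i) → B (fun n i => ⌊α i ^ g i n + c i n⌋)) := by
  refine ⟨fun u v F hF => ?_, fun g c hg => ?_, fun g c hg => ?_⟩
  · filter_upwards [spread_wd hD hρ hρ1 u v F hF] with α hα h
    exact hB _ (hα h)
  · filter_upwards [lin_wd hD hρ hρ1 g c hg] with α hα
    exact hB _ hα
  · filter_upwards [pow_wd hD hρ hρ1 g hg c] with α hα h
    exact hB _ (hα h)

end

end Pool.Agent.Helper94.EN
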